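import Pool.Agent.Helper97K9.IP.Wf

/-!
# ISOLATED-POINT-EXISTENCE is `∃∀ℝ`-complete
-/

set_option autoImplicit false

namespace Pool.Agent.Results.MP_47d501_lc.IsolatedPointExistence

open Pool.Agent.NPC Pool.Agent.NPC.ER Pool.Agent.NPC.H612 Pool.Agent.NPC.R537HD

/-- All variables of the polynomial expression are among `x_0, …, x_{n-1}`. -/
def TmIn (n : ℕ) : Tm → Prop
  | Tm.var i => i < n
  | Tm.zero => True
  | Tm.one => True
  | Tm.add s t => TmIn n s ∧ TmIn n t
  | Tm.neg s => TmIn n s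
  | Tm.mul s t => TmIn n s ∧ TmIn n t

/-- All variables of the quantifier-free formula are among `x_0, …, x_{n-1}`. -/
def FmIn (n : ℕ) : Fm → Prop
  | Fm.eq s t => TmIn n s ∧ TmIn n t
  | Fm.lt s t => TmIn n s ∧ TmIn n t
  | Fm.le s t => TmIn n s ∧ TmIn n t
  | Fm.not φ => FmIn n φ
  | Fm.and φ ψ => FmIn n φ ∧ FmIn n ψ
  | Fm.or φ ψ => FmIn n φ ∧ FmIn n ψ

/-- `x` is an isolated point of `S ⊆ ℝⁿ`. -/
def IsIsolated {n : ℕ} (S : Set (EuclideanSpace ℝ (Fin n))) (x : EuclideanSpace ℝ (Fin n)) :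
    Prop :=
  x ∈ S ∧ ∃ ε > 0, S ∩ Metric.ball x ε = {x}

/-- ISOLATED-POINT-EXISTENCE: an instance consists of the dimension `n` (in unary, as a list of
length `n`) and a quantifier-free formula `φ` in the variables `x_0, …, x_{n-1}`; the question is
whether the semialgebraic set `{x ∈ ℝⁿ : φ(x)}` has an isolated point. -/
def IsolatedPoint (I : List Unit × Fm) : Prop :=
  FmIn I.1.length I.2 ∧
    ∃ x : EuclideanSpace ℝ (Fin I.1.length), IsIsolated (semi I.1.length I.2) x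

theorem tmIn_eq (n : ℕ) (t : Tm) : TmIn n t ↔ Helper97K9.IP.vlt n t := by
  induction t with
  | var i => exact Iff.rfl
  | zero => exact Iff.rfl
  | one => exact Iff.rfl
  | add s t h1 h2 => exact and_congr h1 h2
  | neg s h1 => exact h1
  | mul s t h1 h2 => exact and_congr h1 h2

theorem fmIn_eq (n : ℕ) (φ : Fm) : FmIn n φ ↔ Helper97K9.IP.fvlt n φ := by
  induction φ with
  | eq s t => exact and_congr (tmIn_eq n s) (tmIn_eq n t)
  | lt s t => exact and_congr (tmIn_eq n s) (tmIn_eq n t)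
  | le s t => exact and_congr (tmIn_eq n s) (tmIn_eq n t)
  | not φ h1 => exact h1
  | and φ ψ h1 h2 => exact and_congr h1 h2
  | or φ ψ h1 h2 => exact and_congr h1 h2

theorem isolated_iff {n : ℕ} (S : Set (EuclideanSpace ℝ (Fin n)))
    (x : EuclideanSpace ℝ (Fin n)) :
    IsIsolated S x ↔ x ∈ S ∧ ∃ ε > 0, ∀ y ∈ S, dist y x < ε → y = x := by
  unfold IsIsolated
  refine and_congr_right fun hx => ⟨?_, ?_⟩
  · rintro ⟨ε, hε, h⟩
    refine ⟨ε, hε, fun y hy hd => ?_⟩
    have h1 : y ∈ S ∩ Metric.ball x ε := ⟨hy, Metric.mem_ball.2 hd⟩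
    rw [h] at h1
    exact h1
  · rintro ⟨ε, hε, h⟩
    refine ⟨ε, hε, Set.eq_singleton_iff_unique_mem.2
      ⟨⟨hx, Metric.mem_ball_self hε⟩, fun y hy => h y hy.1 (Metric.mem_ball.1 hy.2)⟩⟩

theorem isolatedPoint_eq : IsolatedPoint = Helper97K9.IP.IsoV := by
  funext I
  refine propext (and_congr (fmIn_eq _ _) ?_)
  constructor
  · rintro ⟨x, hx⟩
    exact ⟨x, (isolated_iff _ x).1 hx⟩
  · rintro ⟨x, hx⟩
    exact ⟨x, (isolated_iff _ x).2 hx⟩

/-- ISOLATED-POINT-EXISTENCE is `∃∀ℝ`-complete under polynomial-time many-one reductions. -/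
theorem result : EARComplete (lang IsolatedPoint) := by
  rw [isolatedPoint_eq]
  exact Helper97K9.IP.completeV

end Pool.Agent.Results.MP_47d501_lc.IsolatedPointExistence
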